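import Mathlib
import Pool.Agent.Helper47.MultDefs
import Pool.Agent.Helper47.MultProof

/-!
Spectral permanence of the multiplier algebras `M(L^p(G))` of compact abelian groups.
-/

namespace Pool.Agent.Results.MP_d09f5b_an.SpectralPermanence

open MeasureTheory ENNReal Pool.Agent.Helper47.Mult

set_option linter.overlappingInstances false

/-- For every compact Hausdorff abelian group `G` with (regular) Haar measure `μ` and every
`1 ≤ p < ∞`, the multiplier algebra `M(L^p(G))` has the spectral permanence property. -/
theorem result.{u, v} {G : Type u} [AddCommGroup G] [TopologicalSpace G] [IsTopologicalAddGroup G]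
    [CompactSpace G] [T2Space G] [MeasurableSpace G] [BorelSpace G]
    (μ : Measure G) [μ.IsAddHaarMeasure] [μ.Regular] (p : ℝ≥0∞) [Fact (1 ≤ p)] (hp : p ≠ ∞) :
    HasSpectralPermanence.{u, v} (multiplierAlgebra μ p) :=
  spectral_permanence μ p hp

end Pool.Agent.Results.MP_d09f5b_an.SpectralPermanence
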